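import Mathlib

/-!
# Regular graphs with total domination number below twice the path covering number

For every `k ≥ 4` there is a connected `2k`-regular graph with total domination number at most
`k + 1` and path covering number at least `k - 1`; so `γ_t ≥ 2 π` fails.
-/

set_option autoImplicit false

namespace Pool.Agent.Results.MP_f6a359_co.CutVertexFamily

/-- `S` is a total dominating set of `G`: every vertex has a neighbour in `S`. -/
def IsTotalDominating {V : Type*} (G : SimpleGraph V) (S : Finset V) : Prop :=
  ∀ v, ∃ w ∈ S, G.Adj v w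

/-- The total domination number: the least size of a total dominating set. -/
noncomputable def totalDomNum {V : Type*} (G : SimpleGraph V) : ℕ :=
  sInf {m | ∃ S : Finset V, IsTotalDominating G S ∧ S.card = m}

/-- `P` is a path cover of `G` with `p` paths: each path is a nonempty list of distinct vertices
in which consecutive vertices are adjacent, distinct paths are disjoint, and every vertex lies on
a path. -/
def IsPathCover {V : Type*} (G : SimpleGraph V) {p : ℕ} (P : Fin p → List V) : Prop :=
  (∀ i, P i ≠ [] ∧ (P i).Nodup ∧ (P i).IsChain G.Adj) ∧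
    (∀ i j, i ≠ j → List.Disjoint (P i) (P j)) ∧ ∀ v, ∃ i, v ∈ P i

/-- The path covering number: the least number of paths in a path cover. -/
noncomputable def pathCoverNum {V : Type*} (G : SimpleGraph V) : ℕ :=
  sInf {p | ∃ P : Fin p → List V, IsPathCover G P}

/-- The vertices: a cut vertex `none` and `k` blocks of `2k+1` vertices. -/
abbrev Vtx (k : ℕ) : Type := Option (Fin k × Fin (2 * k + 1))

/-- Adjacency relation: inside a block all pairs but the pair `{0, 1}`; the cut vertex sees the
vertices `0` and `1` of every block. -/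
def adjRel (k : ℕ) : Vtx k → Vtx k → Prop
  | none, none => False
  | none, some (_, a) => a.val ≤ 1
  | some (_, a), none => a.val ≤ 1
  | some (i, a), some (j, b) => i = j ∧ a ≠ b ∧ ¬ (a.val ≤ 1 ∧ b.val ≤ 1)

instance (k : ℕ) : DecidableRel (adjRel k) := by
  intro x y
  rcases x with _ | ⟨i, a⟩ <;> rcases y with _ | ⟨j, b⟩ <;> unfold adjRel <;> infer_instance

/-- The graph. -/
def blockGraph (k : ℕ) : SimpleGraph (Vtx k) where
  Adj := adjRel k
  symm := ⟨by
    rintro (_ | ⟨i, a⟩) (_ | ⟨j, b⟩) h
    · exact h
    · exact h
    · exact h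
    · exact ⟨h.1.symm, h.2.1.symm, fun h' => h.2.2 ⟨h'.2, h'.1⟩⟩⟩
  loopless := ⟨by
    rintro (_ | ⟨i, a⟩) h
    · exact h
    · exact h.2.1 rfl⟩

instance (k : ℕ) : DecidableRel (blockGraph k).Adj :=
  inferInstanceAs (DecidableRel (adjRel k))

lemma adj_none_some {k : ℕ} {i : Fin k} {a : Fin (2 * k + 1)} :
    (blockGraph k).Adj none (some (i, a)) ↔ a.val ≤ 1 := Iff.rfl

lemma adj_some_none {k : ℕ} {i : Fin k} {a : Fin (2 * k + 1)} :
    (blockGraph k).Adj (some (i, a)) none ↔ a.val ≤ 1 := Iff.rfl

lemma adj_some_some {k : ℕ} {i j : Fin k} {a b : Fin (2 * k + 1)} :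
    (blockGraph k).Adj (some (i, a)) (some (j, b)) ↔
      i = j ∧ a ≠ b ∧ ¬ (a.val ≤ 1 ∧ b.val ≤ 1) := Iff.rfl

/-- A chain avoiding the cut vertex stays in one block. -/
lemma chain_block {k : ℕ} : ∀ (l : List (Vtx k)), l.IsChain (blockGraph k).Adj →
    none ∉ l → ∃ C : Finset (Fin k), C.card ≤ 1 ∧ ∀ i a, some (i, a) ∈ l → i ∈ C := by
  intro l
  induction l with
  | nil => intro _ _; exact ⟨∅, by simp, by simp⟩
  | cons x t ih =>
    intro hc hn
    rcases x with _ | ⟨i, a⟩
    · exact absurd (List.mem_cons_self) hn
    rcases t with _ | ⟨y, t'⟩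
    · refine ⟨{i}, by simp, ?_⟩
      intro j b hb
      simp only [List.mem_singleton, Option.some.injEq, Prod.mk.injEq] at hb
      simp [hb.1]
    · rw [List.isChain_cons_cons] at hc
      obtain ⟨hxy, hc'⟩ := hc
      obtain ⟨C, hC1, hC2⟩ := ih hc' (fun h => hn (List.mem_cons_of_mem _ h))
      refine ⟨C, hC1, ?_⟩
      intro j b hb
      rcases List.mem_cons.1 hb with h1 | h1
      · simp only [Option.some.injEq, Prod.mk.injEq] at h1
        rcases y with _ | ⟨i', a'⟩
        · exact absurd (List.mem_cons_of_mem _ List.mem_cons_self) hn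
        have := (adj_some_some.1 hxy).1
        rw [h1.1, this]
        exact hC2 i' a' List.mem_cons_self
      · exact hC2 j b h1

/-- A path meets at most two blocks. -/
lemma path_block {k : ℕ} (l : List (Vtx k)) (hc : l.IsChain (blockGraph k).Adj)
    (hn : l.Nodup) : ∃ C : Finset (Fin k), C.card ≤ (if none ∈ l then 2 else 1) ∧
      ∀ i a, some (i, a) ∈ l → i ∈ C := by
  classical
  by_cases h : none ∈ l
  · rw [if_pos h]
    obtain ⟨A, B, rfl⟩ := List.append_of_mem h
    have hnA : none ∉ A := by
      intro hA
      have := (List.nodup_append.1 hn).2.2 none hA none List.mem_cons_self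
      exact this rfl
    have hnB : none ∉ B := by
      have := (List.nodup_append.1 hn).2.1
      exact (List.nodup_cons.1 this).1
    have hcA : A.IsChain (blockGraph k).Adj := (List.isChain_append.1 hc).1
    have hcB : B.IsChain (blockGraph k).Adj := (List.isChain_append.1 hc).2.1.tail
    obtain ⟨C, hC1, hC2⟩ := chain_block A hcA hnA
    obtain ⟨D, hD1, hD2⟩ := chain_block B hcB hnB
    refine ⟨C ∪ D, (Finset.card_union_le _ _).trans (by omega), ?_⟩
    intro i a hia
    rcases List.mem_append.1 hia with h1 | h1
    · exact Finset.mem_union_left _ (hC2 i a h1)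
    · rcases List.mem_cons.1 h1 with h2 | h2
      · cases h2
      · exact Finset.mem_union_right _ (hD2 i a h2)
  · rw [if_neg h]
    exact chain_block l hc h

/-- Every path cover has at least `k - 1` paths. -/
lemma le_of_pathCover {k p : ℕ} (P : Fin p → List (Vtx k)) (hP : IsPathCover (blockGraph k) P) :
    k ≤ p + 1 := by
  classical
  obtain ⟨h1, h2, h3⟩ := hP
  choose C hC1 hC2 using fun i => path_block (P i) (h1 i).2.2 (h1 i).2.1
  have hcov : (Finset.univ : Finset (Fin k)) ⊆ Finset.univ.biUnion C := by
    intro j _
    obtain ⟨i, hi⟩ := h3 (some (j, 0))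
    exact Finset.mem_biUnion.2 ⟨i, Finset.mem_univ _, hC2 i j 0 hi⟩
  have hk : k ≤ ∑ i, (C i).card := by
    have := (Finset.card_le_card hcov).trans Finset.card_biUnion_le
    simpa using this
  have hs : ∑ i, (C i).card ≤ ∑ i, (1 + if none ∈ P i then 1 else 0) := by
    apply Finset.sum_le_sum
    intro i _
    have := hC1 i
    split_ifs at this ⊢ <;> omega
  rw [Finset.sum_add_distrib] at hs
  have hone : ∑ i, (if none ∈ P i then 1 else 0) ≤ 1 := by
    rw [← Finset.card_filter]
    rw [Finset.card_le_one]
    intro a ha b hb
    by_contra hab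
    exact h2 a b hab (Finset.mem_filter.1 ha).2 (Finset.mem_filter.1 hb).2
  have : ∑ _i : Fin p, 1 = p := by simp
  omega

/-- A trivial path cover by single vertices. -/
lemma exists_pathCover {V : Type*} [Fintype V] (G : SimpleGraph V) :
    ∃ p, ∃ P : Fin p → List V, IsPathCover G P := by
  refine ⟨Fintype.card V, fun i => [(Fintype.equivFin V).symm i], ?_, ?_, ?_⟩
  · intro i; exact ⟨by simp, by simp, by simp⟩
  · intro i j hij
    simp only [List.disjoint_singleton, List.mem_singleton, EmbeddingLike.apply_eq_iff_eq]
    exact fun h => hij h.symm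
  · intro v
    exact ⟨Fintype.equivFin V v, by simp⟩

lemma pathCoverNum_ge {k : ℕ} : k ≤ pathCoverNum (blockGraph k) + 1 := by
  obtain ⟨P, hP⟩ := Nat.sInf_mem (exists_pathCover (blockGraph k))
  exact le_of_pathCover P hP

/-- The total dominating set: the cut vertex and vertex `0` of each block. -/
def tds (k : ℕ) : Finset (Vtx k) :=
  insert none ((Finset.univ : Finset (Fin k)).image (fun i => some (i, 0)))

lemma tds_card (k : ℕ) : (tds k).card = k + 1 := by
  unfold tds
  rw [Finset.card_insert_of_notMem (by simp), Finset.card_image_of_injective, Finset.card_univ,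
    Fintype.card_fin]
  intro i j h
  simpa using h

lemma tds_total {k : ℕ} (hk : 1 ≤ k) : IsTotalDominating (blockGraph k) (tds k) := by
  intro v
  rcases v with _ | ⟨i, a⟩
  · refine ⟨some (⟨0, hk⟩, 0), ?_, ?_⟩
    · simp [tds]
    · rw [adj_none_some]; simp
  · by_cases ha : a.val ≤ 1
    · exact ⟨none, by simp [tds], ha⟩
    · refine ⟨some (i, 0), by simp [tds], ?_⟩
      rw [adj_some_some]
      refine ⟨rfl, ?_, fun h => ha h.1⟩
      rintro rfl
      simp at ha

lemma totalDomNum_le {k : ℕ} (hk : 1 ≤ k) : totalDomNum (blockGraph k) ≤ k + 1 :=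
  Nat.sInf_le ⟨tds k, tds_total hk, tds_card k⟩

lemma connected (k : ℕ) : (blockGraph k).Connected := by
  have key : ∀ v : Vtx k, (blockGraph k).Reachable v none := by
    intro v
    rcases v with _ | ⟨i, a⟩
    · exact SimpleGraph.Reachable.refl _
    · by_cases ha : a.val ≤ 1
      · exact SimpleGraph.Adj.reachable (adj_some_none.2 ha)
      · have h1 : (blockGraph k).Adj (some (i, a)) (some (i, 0)) := by
          rw [adj_some_some]
          refine ⟨rfl, ?_, fun h => ha h.1⟩
          rintro rfl
          simp at ha
        exact h1.reachable.trans (SimpleGraph.Adj.reachable (adj_some_none.2 (by simp)))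
  have : Nonempty (Vtx k) := ⟨none⟩
  exact SimpleGraph.Connected.mk (fun u v => (key u).trans (key v).symm)

/-- The two special vertices of a block. -/
def low (k : ℕ) : Finset (Fin (2 * k + 1)) := Finset.univ.filter (fun b => b.val ≤ 1)

lemma low_card {k : ℕ} (hk : 1 ≤ k) : (low k).card = 2 := by
  have h1 : ((1 : Fin (2 * k + 1)) : ℕ) = 1 := by
    rw [Fin.val_one', Nat.mod_eq_of_lt (by omega)]
  have : low k = {0, 1} := by
    ext b
    simp only [low, Finset.mem_filter, Finset.mem_univ, true_and, Finset.mem_insert,
      Finset.mem_singleton, Fin.ext_iff, h1, Fin.val_zero]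
    omega
  rw [this, Finset.card_pair]
  intro h
  have := congrArg Fin.val h
  rw [h1, Fin.val_zero] at this
  omega

lemma regular {k : ℕ} (hk : 1 ≤ k) : (blockGraph k).IsRegularOfDegree (2 * k) := by
  classical
  intro v
  rw [← SimpleGraph.card_neighborFinset_eq_degree]
  rcases v with _ | ⟨i, a⟩
  · have : (blockGraph k).neighborFinset none =
        ((Finset.univ : Finset (Fin k)) ×ˢ low k).image some := by
      ext w
      rw [SimpleGraph.mem_neighborFinset]
      rcases w with _ | ⟨j, b⟩
      · simp
      · rw [adj_none_some]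
        simp [low]
    rw [this, Finset.card_image_of_injective _ (Option.some_injective _), Finset.card_product,
      low_card hk]
    simp; ring
  · have hinj : Function.Injective (fun b : Fin (2 * k + 1) => (some (i, b) : Vtx k)) := by
      intro b c h
      simpa using h
    by_cases ha : a.val ≤ 1
    · have : (blockGraph k).neighborFinset (some (i, a)) =
          insert none ((Finset.univ \ low k).image (fun b => some (i, b))) := by
        ext w
        rw [SimpleGraph.mem_neighborFinset]
        rcases w with _ | ⟨j, b⟩
        · simp [adj_some_none, ha]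
        · rw [adj_some_some]
          simp only [low, Finset.mem_insert, reduceCtorEq, Finset.mem_image, Finset.mem_sdiff,
            Finset.mem_univ, true_and, Finset.mem_filter, Option.some.injEq, Prod.mk.injEq,
            false_or]
          constructor
          · rintro ⟨rfl, _, h2⟩
            exact ⟨b, fun h => h2 ⟨ha, h⟩, rfl, rfl⟩
          · rintro ⟨c, hc, rfl, rfl⟩
            refine ⟨rfl, ?_, fun h => hc h.2⟩
            rintro rfl
            exact hc ha
      rw [this, Finset.card_insert_of_notMem (by simp), Finset.card_image_of_injective _ hinj,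
        Finset.card_sdiff_of_subset (Finset.subset_univ _), low_card hk]
      simp
      omega
    · have : (blockGraph k).neighborFinset (some (i, a)) =
          (Finset.univ.erase a).image (fun b => some (i, b)) := by
        ext w
        rw [SimpleGraph.mem_neighborFinset]
        rcases w with _ | ⟨j, b⟩
        · simp [adj_some_none, ha]
        · rw [adj_some_some]
          simp only [Finset.mem_image, Finset.mem_erase,
            Finset.mem_univ, and_true, Option.some.injEq, Prod.mk.injEq]
          constructor
          · rintro ⟨rfl, h1, h2⟩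
            exact ⟨b, fun h => h1 h.symm, rfl, rfl⟩
          · rintro ⟨c, hc, rfl, rfl⟩
            exact ⟨rfl, fun h => hc h.symm, fun h => ha h.1⟩
      rw [this, Finset.card_image_of_injective _ hinj, Finset.card_erase_of_mem (Finset.mem_univ _)]
      simp

/-- For every `k ≥ 4` there is a connected `2k`-regular graph whose total domination number is at
most `k + 1` and whose path covering number is at least `k - 1`; in particular
`γ_t < 2 π` for it. -/
theorem result : ∀ k : ℕ, 4 ≤ k →
    ∃ (V : Type) (_ : Fintype V) (G : SimpleGraph V) (_ : DecidableRel G.Adj),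
      G.Connected ∧ G.IsRegularOfDegree (2 * k) ∧ totalDomNum G ≤ k + 1 ∧
      k - 1 ≤ pathCoverNum G ∧ totalDomNum G < 2 * pathCoverNum G := by
  intro k hk
  have h1 := totalDomNum_le (k := k) (by omega)
  have h2 := pathCoverNum_ge (k := k)
  exact ⟨Vtx k, inferInstance, blockGraph k, inferInstance, connected k, regular (by omega), h1,
    by omega, by omega⟩

end Pool.Agent.Results.MP_f6a359_co.CutVertexFamily
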